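import Pool.Agent.W603.PV.Trunc

/-!
Lines through the generic point that meet the boundary in at most two points, and the truncated
counting function for several divisors.
-/

set_option autoImplicit false

open FF MvPolynomial Pool.Agent.W603.LV Pool.Agent.W603.PV

namespace Pool.Agent.W603.DA

/-- Let `X` be the closed subvariety of projective `n`-space over `F` with the homogeneous prime
ideal `p`. Over some extension field `K` of `F` there are a generic point `y` of `X` and a line
through `y` in `X` that meets the union of the divisors `Q j = 0` in at most two points: for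
suitable coordinates `(s : t)` on the line `s y + t v`, for which `y` is the point `(1 : 0)`, the
two points are `s = 0` and `s + t = 0`, so that the restriction of `Q j` to the line is the constant
`Q_j(y)` times powers of `s` and `s + t`. -/
def HasGmLine {F : Type} [Field F] {n : ℕ} {κ : Type}
    (p : Ideal (MvPolynomial (Fin (n + 1)) F)) (Q : κ → MvPolynomial (Fin (n + 1)) F) : Prop :=
  ∃ (K : Type) (_ : Field K) (_ : Algebra F K) (y v : Fin (n + 1) → K) (a b : κ → ℕ),
    (∀ H ∈ p, aeval y H = 0) ∧ (∀ d H, H.IsHomogeneous d → H ∉ p → aeval y H ≠ 0) ∧
    (∃ i j, y i * v j - y j * v i ≠ 0) ∧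
    ∀ s t : K, (∀ H ∈ p, aeval (fun l => s * y l + t * v l) H = 0) ∧
      ∀ j, aeval (fun l => s * y l + t * v l) (Q j) = aeval y (Q j) * s ^ a j * (s + t) ^ b j

/-- The places of `L` not over `S` where the point `f` meets one of the divisors `Q j = 0`, where
`Q j` is a form of degree `q j`; the truncated counting function is their number. -/
def truncAny {k F : Type} [Field k] [Field F] [Algebra k F] {n : ℕ} {κ : Type} {L : Type} [Field L]
    [Algebra k L] [Algebra F L] (S : Finset (Place k F))
    (Q : κ → MvPolynomial (Fin (n + 1)) F) (q : κ → ℕ) (f : Fin (n + 1) → L) :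
    Set (Place k L) :=
  {P | (∀ v ∈ S, ¬ Over P v) ∧ ∃ j, q j * pord P f < P.ord (aeval f (Q j))}

end Pool.Agent.W603.DA
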