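import Pool.Agent.W603.DA.Defs

/-!
Points of large height on lines that meet the boundary in at most two points.
-/

set_option autoImplicit false

open FF MvPolynomial Pool.Agent.W603.LV Pool.Agent.W603.PV

namespace Pool.Agent.W603.DA

section Spec

variable {F K : Type} [Field F] [Field K] [Algebra F K]

/-- specialisation of finitely many elements of an extension field to a finite extension -/
theorem specialise_fin {σ : Type} [Finite σ] (φ : MvPolynomial σ F →ₐ[F] K) (D : MvPolynomial σ F)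
    (hD : φ D ≠ 0) :
    ∃ (L : Type) (_ : Field L) (_ : Algebra F L) (_ : FiniteDimensional F L)
      (ψ : MvPolynomial σ F →ₐ[F] L), (∀ E, φ E = 0 → ψ E = 0) ∧ ψ D ≠ 0 := by
  classical
  obtain ⟨P, hPd⟩ : ∃ P : Ideal (MvPolynomial σ F), P = RingHom.ker φ := ⟨_, rfl⟩
  have hP : P.IsPrime := by rw [hPd]; exact RingHom.ker_isPrime φ
  have h1 : P.jacobson = P := IsJacobsonRing.out inferInstance hP.isRadical
  have h2 : D ∉ P.jacobson := by
    rw [h1, hPd]
    exact fun h => hD (RingHom.mem_ker.1 h)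
  rw [Ideal.jacobson, Submodule.mem_sInf] at h2
  push Not at h2
  obtain ⟨m, ⟨hPm, hm⟩, hDm⟩ := h2
  let _ : Field (MvPolynomial σ F ⧸ m) := Ideal.Quotient.field m
  have hfin : Module.Finite F (MvPolynomial σ F ⧸ m) :=
    finite_of_finite_type_of_isJacobsonRing F (MvPolynomial σ F ⧸ m)
  refine ⟨MvPolynomial σ F ⧸ m, inferInstance, inferInstance, hfin, Ideal.Quotient.mkₐ F m, ?_, ?_⟩
  · intro E hE
    have h3 : E ∈ P := by rw [hPd]; exact RingHom.mem_ker.2 hE
    exact Ideal.Quotient.eq_zero_iff_mem.2 (hPm h3)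
  · intro h
    exact hDm (Ideal.Quotient.eq_zero_iff_mem.1 h)

/-- transfer of polynomial identities -/
theorem transfer {A L : Type} [CommRing A] [Algebra F A] [Field L] [Algebra F L] [Infinite K]
    (φ : A →ₐ[F] K) (ψ : A →ₐ[F] L) (h : ∀ E, φ E = 0 → ψ E = 0) (E : MvPolynomial (Fin 2) A)
    (h0 : ∀ s t : K, eval₂ (φ : A →+* K) ![s, t] E = 0) (s t : L) :
    eval₂ (ψ : A →+* L) ![s, t] E = 0 := by
  have h1 : MvPolynomial.map (φ : A →+* K) E = 0 := by
    refine MvPolynomial.funext fun x => ?_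
    have hx : x = ![x 0, x 1] := by
      funext i
      fin_cases i <;> rfl
    rw [map_zero, eval_map, hx]
    exact h0 _ _
  have h2 : MvPolynomial.map (ψ : A →+* L) E = 0 := by
    ext α
    rw [coeff_map, coeff_zero]
    apply h
    have h3 := congrArg (coeff α) h1
    rw [coeff_map, coeff_zero] at h3
    exact h3
  rw [← eval_map, h2, map_zero]

/-- the restriction of a form to the generic line -/
noncomputable def onLine {n : ℕ} (H : MvPolynomial (Fin (n + 1)) F) :
    MvPolynomial (Fin 2) (MvPolynomial (Fin (n + 1) ⊕ Fin (n + 1)) F) :=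
  aeval (fun l => X 0 * C (X (Sum.inl l)) + X 1 * C (X (Sum.inr l))) H

theorem eval_onLine {n : ℕ} {M : Type} [Field M] [Algebra F M]
    (θ : MvPolynomial (Fin (n + 1) ⊕ Fin (n + 1)) F →ₐ[F] M) (s t : M)
    (H : MvPolynomial (Fin (n + 1)) F) :
    eval₂ (θ : MvPolynomial (Fin (n + 1) ⊕ Fin (n + 1)) F →+* M) ![s, t] (onLine H) =
      aeval (fun l => s * θ (X (Sum.inl l)) + t * θ (X (Sum.inr l))) H := by
  unfold onLine
  induction H using MvPolynomial.induction_on with
  | C a =>
    rw [aeval_C, aeval_C, MvPolynomial.algebraMap_apply, eval₂_C]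
    exact θ.commutes a
  | add p q hp hq => rw [map_add, map_add, eval₂_add, hp, hq]
  | mul_X p s hp =>
    rw [map_mul, map_mul, eval₂_mul, hp, aeval_X, aeval_X]
    congr 1
    rw [eval₂_add, eval₂_mul, eval₂_mul, eval₂_X, eval₂_X, eval₂_C, eval₂_C]
    rfl

/-- A line through the generic point that meets the boundary in at most two points specialises to
such a line over a finite extension of the field, through a point outside a given closed subset. -/
theorem spec_line [Infinite F] {n : ℕ} {κ : Type} [Finite κ]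
    {p : Ideal (MvPolynomial (Fin (n + 1)) F)}
    {Q : κ → MvPolynomial (Fin (n + 1)) F} {q : κ → ℕ} (hQ : ∀ j, (Q j).IsHomogeneous (q j))
    (hQp : ∀ j, Q j ∉ p) (h : HasGmLine p Q) {d : ℕ} {G : MvPolynomial (Fin (n + 1)) F}
    (hG : G.IsHomogeneous d) (hGp : G ∉ p) :
    ∃ (L : Type) (_ : Field L) (_ : Algebra F L) (_ : FiniteDimensional F L)
      (y v : Fin (n + 1) → L) (a b : κ → ℕ), aeval y G ≠ 0 ∧ (∀ j, aeval y (Q j) ≠ 0) ∧
      (∃ i j, y i * v j - y j * v i ≠ 0) ∧
      ∀ s t : L, (∀ H ∈ p, aeval (fun l => s * y l + t * v l) H = 0) ∧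
      ∀ j, aeval (fun l => s * y l + t * v l) (Q j) = aeval y (Q j) * s ^ a j * (s + t) ^ b j := by
  classical
  have := Fintype.ofFinite κ
  obtain ⟨K, _, _, y, v, a, b, hy0, hy1, ⟨i, j, hij⟩, hl⟩ := h
  have hK : Infinite K := Infinite.of_injective _ (algebraMap F K).injective
  let A := MvPolynomial (Fin (n + 1) ⊕ Fin (n + 1)) F
  let φ : A →ₐ[F] K := aeval (Sum.elim y v)
  let inl : MvPolynomial (Fin (n + 1)) F → A := rename Sum.inl
  have hinl : ∀ {M : Type} [Field M] [Algebra F M] (θ : A →ₐ[F] M)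
      (H : MvPolynomial (Fin (n + 1)) F), θ (inl H) = aeval (fun l => θ (X (Sum.inl l))) H := by
    intro M _ _ θ H
    have h1 : θ.comp (rename Sum.inl) = aeval (fun l => θ (X (Sum.inl l))) := by
      apply MvPolynomial.algHom_ext
      intro l
      rw [AlgHom.comp_apply, rename_X, aeval_X]
    exact congrArg (fun f => f H) h1
  have hφy : (fun l => φ (X (Sum.inl l))) = y := by
    funext l
    change aeval (Sum.elim y v) (X (Sum.inl l)) = y l
    rw [aeval_X]
    rfl
  obtain ⟨L, _, _, _, ψ, hψ, hψD⟩ := specialise_fin φ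
    (inl G * (∏ j, inl (Q j)) * (X (Sum.inl i) * X (Sum.inr j) - X (Sum.inl j) * X (Sum.inr i)))
    (by
      rw [map_mul, map_mul, map_prod]
      refine mul_ne_zero (mul_ne_zero ?_ (Finset.prod_ne_zero_iff.2 fun j _ => ?_)) ?_
      · rw [hinl, hφy]
        exact hy1 d G hG hGp
      · rw [hinl, hφy]
        exact hy1 _ _ (hQ j) (hQp j)
      · rw [map_sub, map_mul, map_mul]
        simp only [φ, aeval_X, Sum.elim_inl, Sum.elim_inr]
        exact hij)
  rw [map_mul, map_mul, map_prod, hinl, map_sub, map_mul, map_mul] at hψD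
  refine ⟨L, inferInstance, inferInstance, inferInstance, fun l => ψ (X (Sum.inl l)),
    fun l => ψ (X (Sum.inr l)), a, b, left_ne_zero_of_mul (left_ne_zero_of_mul hψD), fun j => ?_,
    ⟨i, j, right_ne_zero_of_mul hψD⟩, fun s t => ⟨fun H hH => ?_, fun j => ?_⟩⟩
  · have h1 := Finset.prod_ne_zero_iff.1 (right_ne_zero_of_mul (left_ne_zero_of_mul hψD)) j
      (Finset.mem_univ j)
    rw [hinl] at h1
    exact h1
  · rw [← eval_onLine]
    refine transfer φ ψ hψ _ (fun s t => ?_) s t
    rw [eval_onLine]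
    have h1 := (hl s t).1 H hH
    rw [← h1]
    simp only [φ, aeval_X, Sum.elim_inl, Sum.elim_inr]
  · have h0 := transfer φ ψ hψ (onLine (Q j) - C (inl (Q j)) * X 0 ^ a j * (X 0 + X 1) ^ b j)
      (fun s t => by
        rw [eval₂_sub, eval_onLine, eval₂_mul, eval₂_mul, eval₂_pow, eval₂_pow, eval₂_add,
          eval₂_X, eval₂_X, eval₂_C, sub_eq_zero]
        have h1 := (hl s t).2 j
        have h2 := hinl φ (Q j)
        rw [hφy] at h2
        change _ = φ (inl (Q j)) * s ^ a j * (s + t) ^ b j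
        rw [h2, ← h1]
        simp only [φ, aeval_X, Sum.elim_inl, Sum.elim_inr]) s t
    rw [eval₂_sub, eval_onLine, eval₂_mul, eval₂_mul, eval₂_pow, eval₂_pow, eval₂_add,
      eval₂_X, eval₂_X, eval₂_C, sub_eq_zero] at h0
    rw [h0]
    change ψ (inl (Q j)) * s ^ a j * (s + t) ^ b j = _
    rw [hinl]

end Spec

section Height

variable {k L : Type} [Field k] [Field L] [Algebra k L] {n : ℕ}

/-- the height on a line -/
theorem pht_line [IsAlgClosed k] [CharZero k] [IsFF k L] (y v : Fin (n + 1) → L)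
    {i j : Fin (n + 1)} (hij : y i * v j - y j * v i ≠ 0) :
    ∃ C : ℤ, ∀ t : L, t ≠ 0 → hgt k t ≤ pht k (fun l => y l + t * v l) + C := by
  classical
  have hy : ∃ l, y l ≠ 0 := by
    by_contra hcon
    push Not at hcon
    apply hij
    rw [hcon i, hcon j]
    ring
  have hv : ∃ l, v l ≠ 0 := by
    by_contra hcon
    push Not at hcon
    apply hij
    rw [hcon i, hcon j]
    ring
  obtain ⟨T0, hT0⟩ := exists_supp (k := k) (Finset.univ : Finset (Fin (n + 1) ⊕ Fin (n + 1)))
    (Sum.elim y v)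
  have hw : ∀ P ∉ T0, pord P y = 0 ∧ pord P v = 0 := by
    intro P hP
    obtain ⟨a, -, ha⟩ := exists_pord P hy
    obtain ⟨b, -, hb⟩ := exists_pord P hv
    constructor
    · rw [← ha]
      by_contra h
      exact hP (hT0 (Sum.inl a) (Finset.mem_univ _) P h)
    · rw [← hb]
      by_contra h
      exact hP (hT0 (Sum.inr b) (Finset.mem_univ _) P h)
  refine ⟨-∑ P ∈ T0, min (pord P y) (pord P v), fun t ht => ?_⟩
  obtain ⟨f, hf⟩ : ∃ f : Fin (n + 1) → L, f = fun l => y l + t * v l := ⟨_, rfl⟩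
  obtain ⟨δ, hδ⟩ : ∃ δ : L, δ = y i * v j - y j * v i := ⟨_, rfl⟩
  have hδ0 : δ ≠ 0 := by rw [hδ]; exact hij
  rw [← hf]
  have e1 : f i * v j - f j * v i = δ := by rw [hf, hδ]; ring
  have e2 : f j * y i - f i * y j = t * δ := by rw [hf, hδ]; ring
  have hfne : ∃ l, f l ≠ 0 := by
    by_contra hcon
    push Not at hcon
    apply hδ0
    rw [← e1, hcon i, hcon j]
    ring
  obtain ⟨T1, hT1⟩ := exists_supp (k := k) (Finset.univ : Finset (Fin 2 ⊕ Fin (n + 1)))
    (Sum.elim ![t, δ] f)
  obtain ⟨T, hT⟩ : ∃ T, T = T0 ∪ T1 := ⟨_, rfl⟩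
  have hTt : ∀ P : Place k L, P.ord t ≠ 0 → P ∈ T := fun P h => by
    rw [hT]
    exact Finset.mem_union_right _ (hT1 (Sum.inl 0) (Finset.mem_univ _) P h)
  have hTδ : ∀ P : Place k L, P.ord δ ≠ 0 → P ∈ T := fun P h => by
    rw [hT]
    exact Finset.mem_union_right _ (hT1 (Sum.inl 1) (Finset.mem_univ _) P h)
  have hTf : ∀ a, ∀ P : Place k L, P.ord (f a) ≠ 0 → P ∈ T := fun a P h => by
    rw [hT]
    exact Finset.mem_union_right _ (hT1 (Sum.inr a) (Finset.mem_univ _) P h)
  have h2 : pht k f = ∑ P ∈ T, (- pord P f) := by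
    unfold pht
    rw [finsum_eq_sum_of_support_subset (s := T), Finset.sum_neg_distrib]
    intro P hP
    by_contra hcon
    apply hP
    obtain ⟨j, hj, h⟩ := exists_pord P hfne
    simp only
    rw [← h]
    by_contra h'; exact hcon (hTf j P h')
  have h3 : ∑ P ∈ T0, min (pord P y) (pord P v) = ∑ P ∈ T, min (pord P y) (pord P v) := by
    refine Finset.sum_subset (by rw [hT]; exact Finset.subset_union_left) fun P _ hP => ?_
    rw [(hw P hP).1, (hw P hP).2, min_self]
  have h4 : ∑ P ∈ T, P.ord δ = 0 := sum_ord_finset _ T hTδ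
  rw [h2, h3, ← Finset.sum_neg_distrib, ← Finset.sum_add_distrib, ← add_zero (∑ P ∈ T, _), ← h4,
    ← Finset.sum_add_distrib, hgt_finset _ T hTt]
  refine Finset.sum_le_sum fun P _ => ?_
  have k1 : pord P f + pord P v ≤ P.ord δ := by
    have h5 : Ge P (pord P f + pord P v) (f i * v j - f j * v i) :=
      ((ge_pord P f i).mul (ge_pord P v j)).sub ((ge_pord P f j).mul (ge_pord P v i))
    rw [e1] at h5
    exact h5.resolve_left hδ0
  have k2 : pord P f + pord P y ≤ P.ord t + P.ord δ := by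
    have h5 : Ge P (pord P f + pord P y) (f j * y i - f i * y j) :=
      ((ge_pord P f j).mul (ge_pord P y i)).sub ((ge_pord P f i).mul (ge_pord P y j))
    rw [e2] at h5
    have h6 := h5.resolve_left (mul_ne_zero ht hδ0)
    rwa [P.ord_mul ht hδ0] at h6
  refine max_le ?_ ?_ <;> omega

/-- the pole orders of `u ^ m - 1` -/
theorem hgt_pow_sub_one [IsAlgClosed k] [CharZero k] [IsFF k L] {u : L} (hu : Transcendental k u)
    (m : ℕ) : (m : ℤ) ≤ hgt k (u ^ m - 1) := by
  classical
  have hu0 : u ≠ 0 := by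
    rintro rfl
    exact hu isAlgebraic_zero
  have h1 : (1 : ℤ) ≤ hgt k u := by
    by_contra h
    obtain ⟨c, hc⟩ := const_of_hgt (k := k) (f := u) (by omega)
    apply hu
    rw [hc]
    exact isAlgebraic_algebraMap c
  have h2 : hgt k (u ^ m) = m * hgt k u := hgt_pow hu0 m
  have h3 : hgt k (u ^ m) ≤ hgt k (u ^ m - 1) := by
    obtain ⟨T, hT⟩ := exists_supp (k := k) (Finset.univ : Finset (Fin 2)) ![u ^ m, u ^ m - 1]
    rw [hgt_finset (u ^ m) T (hT 0 (Finset.mem_univ _)),
      hgt_finset (u ^ m - 1) T (hT 1 (Finset.mem_univ _))]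
    refine Finset.sum_le_sum fun P _ => ?_
    by_cases h4 : 0 ≤ P.ord (u ^ m)
    · exact (max_le (by omega) le_rfl).trans (le_max_right _ _)
    · push Not at h4
      have h5 : P.ord (u ^ m - 1) ≤ P.ord (u ^ m) := by
        by_contra h6
        push Not at h6
        have h7 : Ge P (min 0 (P.ord (u ^ m - 1))) ((u ^ m - 1) + 1) :=
          Ge.add (Or.inr (min_le_right _ _)) ((Ge.one (P := P)).mono (min_le_left _ _))
        rw [sub_add_cancel] at h7
        have h8 := h7.resolve_left (pow_ne_zero _ hu0)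
        omega
      exact max_le_max (by omega) le_rfl
  nlinarith

end Height

end Pool.Agent.W603.DA
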