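import Pool.Agent.W603.DA.Points

/-!
The height inequality with the truncated counting function holds outside a proper closed subset if
and only if the generic point is on no line that meets the boundary in at most two points.
-/

set_option autoImplicit false

open FF MvPolynomial Pool.Agent.W603.LV Pool.Agent.W603.PV Pool.Agent.W603.CZ
  Pool.Agent.W603.GY

namespace Pool.Agent.W603.DA

variable {k F : Type} [Field k] [Field F] [Algebra k F] {n : ℕ} {ι κ : Type}

theorem trunc_tfae [IsAlgClosed k] [CharZero k] [IsFF k F] [Finite κ]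
    (Fs : ι → MvPolynomial (Fin (n + 1)) F)
    (hF : ∀ i, ∃ s N : ℕ, 0 < N ∧ (s - 1) ^ 2 ≤ N ∧ Pool.Agent.W603.PV.IsPowSum (Fs i) s N)
    (Q : κ → MvPolynomial (Fin (n + 1)) F) (q : κ → ℕ)
    (hQ : ∀ j, ∃ r : ℕ, 0 < q j ∧ r ^ 2 ≤ q j ∧ Pool.Agent.W603.PV.IsPowSum (Q j) r (q j))
    (p : Ideal (MvPolynomial (Fin (n + 1)) F)) [hpp : p.IsPrime]
    (hmin : p ∈ (Ideal.span (Set.range Fs)).minimalPrimes) (hx : ∃ j, X j ∉ p)
    (hQp : ∀ j, Q j ∉ p) :
    List.TFAE [¬ HasGmLine p Q,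
      ∃ (d : ℕ) (G : MvPolynomial (Fin (n + 1)) F), G.IsHomogeneous d ∧ G ∉ p ∧
        (∀ j, Q j ∣ G) ∧ ∃ B : ℕ, ∀ S : Finset (Place k F), ∃ C : ℕ,
        (∀ (L : Type) [Field L] [Algebra k L] [Algebra F L] [IsScalarTower k F L]
        [FiniteDimensional F L] (f : Fin (n + 1) → L),
        (∀ H ∈ p, aeval f H = 0) → aeval f G ≠ 0 →
          pht k f ≤ B * (disc k F L + (truncAny S Q q f).ncard) + C * Module.finrank F L) ∧
        ∀ f : Fin (n + 1) → F, (∀ H ∈ p, aeval f H = 0) → aeval f G ≠ 0 →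
          pht k f ≤ B * (truncAny S Q q f).ncard + C,
      ∃ (d : ℕ) (G : MvPolynomial (Fin (n + 1)) F), G.IsHomogeneous d ∧ G ∉ p ∧
        (∀ j, Q j ∣ G) ∧ ∀ (L : Type) [Field L] [Algebra k L] [Algebra F L] [IsScalarTower k F L]
        [FiniteDimensional F L] (M : ℕ), ∃ C : ℤ, ∀ f : Fin (n + 1) → L,
        (∀ H ∈ p, aeval f H = 0) → aeval f G ≠ 0 →
          (truncAny (∅ : Finset (Place k F)) Q q f).ncard ≤ M → pht k f ≤ C] := by
  have hQhom : ∀ j, (Q j).IsHomogeneous (q j) := by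
    intro j
    obtain ⟨r, _, _, c, l, _, h⟩ := hQ j
    rw [h]
    exact hom_powW _ _
  tfae_have 1 → 2 := fun hline => to_truncAny hx (vojta_multi Fs hF Q q hQ p hmin hx hQp
    fun h => hline (of_punctured h))
  tfae_have 2 → 3 := by
    rintro ⟨d, G, hGd, hG, hQG, B, h⟩
    obtain ⟨C, h1, -⟩ := h ∅
    refine ⟨d, G, hGd, hG, hQG, fun L _ _ _ _ _ M => ⟨B * (disc k F L + M) +
      C * Module.finrank F L, fun f hf hfG hM => (h1 L f hf hfG).trans ?_⟩⟩
    have h2 : ((truncAny (∅ : Finset (Place k F)) Q q f).ncard : ℤ) ≤ M := by exact_mod_cast hM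
    have h3 := mul_le_mul_of_nonneg_left (add_le_add_right h2 (disc k F L))
      (by positivity : (0 : ℤ) ≤ B)
    linarith
  tfae_have 3 → 1 := by
    rintro ⟨d, G, hGd, hG, -, h⟩ hline
    obtain ⟨L, _, _, _, _, _, M, h1⟩ := fails (k := k) hQhom hQp hline hGd hG
    obtain ⟨C, hC⟩ := h L M
    obtain ⟨f, hf, hfG, hfM, hfC⟩ := h1 C
    have h2 := hC f hf hfG (by rw [truncAny_empty]; exact hfM)
    omega
  tfae_finish

end Pool.Agent.W603.DA
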