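import Pool.Agent.W603.DA.Fail
import Pool.Agent.W603.CX.Basic
import Pool.Agent.W603.PV.TruncMain

/-!
Points of large height on the orbits of diagonal one-parameter groups.
-/

set_option autoImplicit false

open FF MvPolynomial Pool.Agent.W603.LV Pool.Agent.W603.PV

namespace Pool.Agent.W603.DA

section Weights

variable {F L : Type} [Field F] [Field L] [Algebra F L] {n : ℕ}

theorem prod_zpow_sum {ι : Type} (s : Finset ι) {t : L} (ht : t ≠ 0) (e : ι → ℤ) :
    ∏ j ∈ s, t ^ e j = t ^ ∑ j ∈ s, e j := by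
  classical
  induction s using Finset.induction_on with
  | empty => simp
  | insert a s ha ih => rw [Finset.prod_insert ha, Finset.sum_insert ha, ih, zpow_add₀ ht]

theorem aeval_orbit_hom (y : Fin n → L) (b : Fin n → ℤ) {t : L} (ht : t ≠ 0)
    {E : MvPolynomial (Fin n) F} {c : ℤ} (hE : IsWeightedHomogeneous b E c) :
    aeval (fun j => t ^ b j * y j) E = t ^ c * aeval y E := by
  rw [aeval_def, eval₂_eq', aeval_def, eval₂_eq', Finset.mul_sum]
  refine Finset.sum_congr rfl fun α hα => ?_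
  have h1 := hE (mem_support_iff.1 hα)
  rw [Finsupp.weight_apply, Finsupp.sum_fintype _ _ (by simp)] at h1
  have h2 : ∏ j, (t ^ b j * y j) ^ α j = t ^ c * ∏ j, y j ^ α j := by
    rw [← h1, ← prod_zpow_sum _ ht, ← Finset.prod_mul_distrib]
    refine Finset.prod_congr rfl fun j _ => ?_
    rw [mul_pow, nsmul_eq_mul, ← zpow_natCast (t ^ b j), ← zpow_mul, mul_comm (b j)]
  rw [h2]
  ring

theorem aeval_orbit (y : Fin n → L) (b : Fin n → ℤ) {t : L} (ht : t ≠ 0)
    (H : MvPolynomial (Fin n) F) :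
    aeval (fun j => t ^ b j * y j) H = ∑ c ∈ H.support.image (Finsupp.weight b),
      t ^ c * aeval y (weightedHomogeneousComponent b c H) := by
  classical
  have h1 : H = ∑ c ∈ H.support.image (Finsupp.weight b), weightedHomogeneousComponent b c H := by
    conv_lhs => rw [← support_sum_monomial_coeff H]
    rw [← Finset.sum_fiberwise_of_maps_to (s := H.support)
      (t := H.support.image (Finsupp.weight b)) (g := Finsupp.weight b)
      (fun α hα => Finset.mem_image_of_mem _ hα)]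
    refine Finset.sum_congr rfl fun c _ => ?_
    rw [weightedHomogeneousComponent_apply]
  conv_lhs => rw [h1]
  rw [map_sum]
  refine Finset.sum_congr rfl fun c _ => ?_
  exact aeval_orbit_hom y b ht (weightedHomogeneousComponent_isWeightedHomogeneous c H)

end Weights

variable {k F : Type} [Field k] [Field F] [Algebra k F] {n : ℕ}

theorem fails_mono [IsAlgClosed k] [CharZero k] [IsFF k F]
    {p : Ideal (MvPolynomial (Fin (n + 1)) F)} [p.IsPrime] (U : Finset (Fin (n + 1)))
    (hX : ∀ j, X j ∉ p) {b : Fin (n + 1) → ℤ} (hb : Stable p b) {i j : Fin (n + 1)}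
    (hij : b i ≠ b j) {G : MvPolynomial (Fin (n + 1)) F} (hGp : G ∉ p) :
    ∃ (L : Type) (_ : Field L) (_ : Algebra k L) (_ : Algebra F L) (_ : IsScalarTower k F L)
      (_ : FiniteDimensional F L) (M : ℕ), ∀ C : ℤ, ∃ f : Fin (n + 1) → L,
      (∀ H ∈ p, aeval f H = 0) ∧ aeval f G ≠ 0 ∧
      (trunc (∅ : Finset (Place k F)) (∏ j ∈ U, X j) U.card f).ncard ≤ M ∧ C < pht k f := by
  classical
  -- a point
  obtain ⟨L, _, _, _, ψ, hψ, hψD⟩ := specialise_fin
    (aeval (xi p) : MvPolynomial (Fin (n + 1)) F →ₐ[F] _) (G * ∏ l, X l) (by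
      rw [Ne, aeval_xi_eq_zero]
      intro h
      rcases Ideal.IsPrime.mem_or_mem inferInstance h with h | h
      · exact hGp h
      · obtain ⟨l, -, hl⟩ := (Ideal.IsPrime.prod_mem_iff (hp := inferInstance)).1 h
        exact hX l hl)
  obtain ⟨y, hy⟩ : ∃ y : Fin (n + 1) → L, y = fun l => ψ (X l) := ⟨_, rfl⟩
  have hψy : ∀ H, ψ H = aeval y H := by
    intro H
    have h1 : ψ = aeval y := by
      apply MvPolynomial.algHom_ext
      intro l
      rw [aeval_X, hy]
    rw [h1]
  have hy0 : ∀ H ∈ p, aeval y H = 0 := fun H hH => by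
    rw [← hψy]
    exact hψ H (aeval_xi_eq_zero.2 hH)
  rw [hψy, map_mul, map_prod] at hψD
  have hyG : aeval y G ≠ 0 := left_ne_zero_of_mul hψD
  have hyl : ∀ l, y l ≠ 0 := fun l => by
    have h1 := Finset.prod_ne_zero_iff.1 (right_ne_zero_of_mul hψD) l (Finset.mem_univ l)
    rwa [aeval_X] at h1
  let ak : Algebra k L := ((algebraMap F L).comp (algebraMap k F)).toAlgebra
  have hst : IsScalarTower k F L := IsScalarTower.of_algebraMap_eq fun _ => rfl
  have hL : IsFF k L := isFF_of_finite (F := F)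
  obtain ⟨u, hu⟩ := IsFF.exists_transcendental (k := k) (K := L)
  have hu0 : u ≠ 0 := by
    rintro rfl
    exact hu isAlgebraic_zero
  have hhu : (1 : ℤ) ≤ hgt k u := by
    by_contra h
    obtain ⟨c, hc⟩ := const_of_hgt (k := k) (f := u) (by omega)
    apply hu
    rw [hc]
    exact isAlgebraic_algebraMap c
  obtain ⟨T0, hT0⟩ := exists_supp (k := k) (Finset.univ : Finset (Option (Fin (n + 1))))
    (fun a => Option.elim a u y)
  have hTy : ∀ P ∉ T0, ∀ l, P.ord (y l) = 0 := fun P hP l => by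
    by_contra h
    exact hP (hT0 (some l) (Finset.mem_univ _) P h)
  have hTu : ∀ P ∉ T0, P.ord u = 0 := fun P hP => by
    by_contra h
    exact hP (hT0 none (Finset.mem_univ _) P h)
  have hz : hgt k (1 : L) = 0 := hgt_one
  -- the exponents for which the point is in the exceptional subset
  obtain ⟨W, hW⟩ : ∃ W : Finset ℤ, W = G.support.image (Finsupp.weight b) := ⟨_, rfl⟩
  obtain ⟨s, hs⟩ : ∃ s : ℤ, s = ∑ c ∈ W, |c| := ⟨_, rfl⟩
  have hsc : ∀ c ∈ W, 0 ≤ c + s := by
    intro c hc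
    have h1 : |c| ≤ s := by
      rw [hs]
      exact Finset.single_le_sum (f := fun c : ℤ => |c|) (fun _ _ => abs_nonneg _) hc
    have h2 := neg_abs_le c
    linarith
  obtain ⟨g, hg⟩ : ∃ g : Polynomial L, g = ∑ c ∈ W,
      Polynomial.C (aeval y (weightedHomogeneousComponent b c G)) * Polynomial.X ^ (c + s).toNat :=
    ⟨_, rfl⟩
  have hgev : ∀ t : L, t ≠ 0 → g.eval t = t ^ s * aeval (fun l => t ^ b l * y l) G := by
    intro t ht
    rw [aeval_orbit y b ht, ← hW, hg, Polynomial.eval_finsetSum, Finset.mul_sum]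
    refine Finset.sum_congr rfl fun c hc => ?_
    rw [Polynomial.eval_mul, Polynomial.eval_C, Polynomial.eval_pow, Polynomial.eval_X,
      ← zpow_natCast, Int.toNat_of_nonneg (hsc c hc), zpow_add₀ ht]
    ring
  have hg0 : g ≠ 0 := by
    intro h0
    apply hyG
    have h1 := hgev 1 one_ne_zero
    rw [h0, Polynomial.eval_zero, one_zpow, one_mul] at h1
    rw [h1]
    congr 2
    funext l
    rw [one_zpow, one_mul]
  have hinj : Function.Injective fun m : ℕ => u ^ m := by
    have main : ∀ a b : ℕ, a < b → u ^ a = u ^ b → False := by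
      intro a b hab h1
      have h2 : u ^ (b - a) = 1 := by
        have h3 : u ^ a * (u ^ (b - a) - 1) = 0 := by
          rw [mul_sub, ← pow_add, mul_one, Nat.add_sub_cancel' hab.le, h1, sub_self]
        exact sub_eq_zero.1 ((mul_eq_zero.1 h3).resolve_left (pow_ne_zero _ hu0))
      have h3 := hgt_pow (k := k) hu0 (b - a)
      rw [h2, hz] at h3
      have h4 : (0 : ℤ) < ((b - a : ℕ) : ℤ) := by omega
      nlinarith
    intro a b he
    rcases lt_trichotomy a b with h | h | h
    · exact (main a b h he).elim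
    · exact h
    · exact (main b a h he.symm).elim
  have hbad : {m : ℕ | g.IsRoot (u ^ m)}.Finite :=
    (Polynomial.finite_setOfPred_isRoot hg0).preimage hinj.injOn
  obtain ⟨b', hb'⟩ := hbad.bddAbove
  obtain ⟨C0, hC0⟩ : ∃ C0 : ℤ, C0 = hgt k (y j / y i) := ⟨_, rfl⟩
  refine ⟨L, inferInstance, ak, inferInstance, hst, inferInstance, T0.card, fun C => ?_⟩
  obtain ⟨m, hm1, hm2, hm3⟩ : ∃ m : ℕ, b' < m ∧ C + C0 < m ∧ 0 < m :=
    ⟨b' + (C + C0).toNat + 1, by omega, by push_cast; omega, by omega⟩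
  obtain ⟨t, ht⟩ : ∃ t : L, t = u ^ m := ⟨_, rfl⟩
  have ht0 : t ≠ 0 := by
    rw [ht]
    exact pow_ne_zero _ hu0
  obtain ⟨f, hf⟩ : ∃ f : Fin (n + 1) → L, f = fun l => t ^ b l * y l := ⟨_, rfl⟩
  have hfl : ∀ l, f l ≠ 0 := fun l => by
    rw [hf]
    exact mul_ne_zero (zpow_ne_zero _ ht0) (hyl l)
  refine ⟨f, fun H hH => ?_, ?_, ?_, ?_⟩
  · rw [hf, aeval_orbit y b ht0]
    refine Finset.sum_eq_zero fun c _ => ?_
    rw [hy0 _ (hb H hH c), mul_zero]
  · intro h0
    rw [hf] at h0
    have h1 := hgev t ht0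
    rw [h0, mul_zero] at h1
    have h2 := hb' (show m ∈ {m : ℕ | g.IsRoot (u ^ m)} by
      rw [Set.mem_ofPred_eq, ← ht]
      exact h1)
    omega
  · have hsub : trunc (∅ : Finset (Place k F)) (∏ j ∈ U, X j) U.card f ⊆ T0 := by
      rintro P ⟨-, hj⟩
      by_contra hP
      have hP' : P ∉ T0 := fun h => hP (Finset.mem_coe.2 h)
      have hfo : ∀ l, P.ord (f l) = 0 := fun l => by
        rw [hf]
        change P.ord (t ^ b l * y l) = 0
        rw [P.ord_mul (zpow_ne_zero _ ht0) (hyl l), P.ord_zpow, hTy P hP', ht, P.ord_pow,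
          hTu P hP']
        ring
      have hpf : pord P f = 0 := by
        obtain ⟨a, ha, hpa⟩ := exists_pord P ⟨0, hfl 0⟩
        rw [← hpa, hfo]
      have hprod : ∀ V : Finset (Fin (n + 1)), P.ord (∏ l ∈ V, f l) = 0 := by
        intro V
        induction V using Finset.induction_on with
        | empty => rw [Finset.prod_empty, P.ord_one]
        | insert a V ha ih =>
          rw [Finset.prod_insert ha, P.ord_mul (hfl a) (Finset.prod_ne_zero_iff.2 fun l _ => hfl l),
            hfo, ih, add_zero]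
      rw [hpf, mul_zero, map_prod] at hj
      simp only [aeval_X] at hj
      rw [hprod] at hj
      exact lt_irrefl _ hj
    have h3 := Set.ncard_le_ncard hsub T0.finite_toSet
    rwa [Set.ncard_coe_finset] at h3
  · have h1 := Pool.Agent.W603.CX.hgt_le_pht (k := k) f (hfl i) (hfl j)
    have h2 : t ^ (b i - b j) = f i / f j * (y j / y i) := by
      rw [hf, zpow_sub₀ ht0]
      have := hyl i
      have := hyl j
      have := zpow_ne_zero (b j) ht0
      field_simp
    have h3 := hgt_mul (k := k) (div_ne_zero (hfl i) (hfl j)) (div_ne_zero (hyl j) (hyl i))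
    rw [← h2, hgt_zpow ht0, ← hC0, ht, hgt_pow hu0] at h3
    have h4 : (1 : ℤ) ≤ |b i - b j| := Int.one_le_abs (sub_ne_zero.2 hij)
    have h5 : (m : ℤ) ≤ |b i - b j| * (m * hgt k u) := by
      have h6 : (0 : ℤ) ≤ m := by positivity
      have h7 : (m : ℤ) ≤ m * hgt k u := by nlinarith
      nlinarith
    omega

theorem mono_tfae [IsAlgClosed k] [CharZero k] [IsFF k F] {ι : Type} [Finite ι]
    (U : Finset (Fin (n + 1))) (Fs : ι → MvPolynomial (Fin (n + 1)) F) {e : ι → ℕ}
    (hF : ∀ i, (Fs i).IsHomogeneous (e i)) (hC : ∀ i, HighPowers U (Fs i).support)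
    (p : Ideal (MvPolynomial (Fin (n + 1)) F))
    (hmin : p ∈ (Ideal.span (Set.range Fs)).minimalPrimes) (hX : ∀ j, X j ∉ p) :
    List.TFAE [∀ b : Fin (n + 1) → ℤ, Stable p b → ∀ j l, b j = b l,
      ∃ (d : ℕ) (G : MvPolynomial (Fin (n + 1)) F), G.IsHomogeneous d ∧ G ∉ p ∧
        (∏ j ∈ U, X j) ∣ G ∧ ∃ B : ℕ, ∀ S : Finset (Place k F), ∃ C : ℕ,
        (∀ (L : Type) [Field L] [Algebra k L] [Algebra F L] [IsScalarTower k F L]
        [FiniteDimensional F L] (f : Fin (n + 1) → L),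
        (∀ H ∈ p, aeval f H = 0) → aeval f G ≠ 0 →
          pht k f ≤ B * (disc k F L + (trunc S (∏ j ∈ U, X j) U.card f).ncard) +
            C * Module.finrank F L) ∧
        ∀ f : Fin (n + 1) → F, (∀ H ∈ p, aeval f H = 0) → aeval f G ≠ 0 →
          pht k f ≤ B * (trunc S (∏ j ∈ U, X j) U.card f).ncard + C,
      ∃ (d : ℕ) (G : MvPolynomial (Fin (n + 1)) F), G.IsHomogeneous d ∧ G ∉ p ∧
        (∏ j ∈ U, X j) ∣ G ∧
        ∀ (L : Type) [Field L] [Algebra k L] [Algebra F L] [IsScalarTower k F L]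
        [FiniteDimensional F L] (M : ℕ), ∃ C : ℤ, ∀ f : Fin (n + 1) → L,
        (∀ H ∈ p, aeval f H = 0) → aeval f G ≠ 0 →
          (trunc (∅ : Finset (Place k F)) (∏ j ∈ U, X j) U.card f).ncard ≤ M → pht k f ≤ C] := by
  have hpp : p.IsPrime := hmin.1.1
  tfae_have 1 → 2 := fun hst => few_trunc U Fs hF hC hmin hX hst
  tfae_have 2 → 3 := by
    rintro ⟨d, G, hGd, hG, hQG, B, h⟩
    obtain ⟨C, h1, -⟩ := h ∅
    refine ⟨d, G, hGd, hG, hQG, fun L _ _ _ _ _ M => ⟨B * (disc k F L + M) +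
      C * Module.finrank F L, fun f hf hfG hM => (h1 L f hf hfG).trans ?_⟩⟩
    have h2 : ((trunc (∅ : Finset (Place k F)) (∏ j ∈ U, X j) U.card f).ncard : ℤ) ≤ M := by
      exact_mod_cast hM
    have h3 := mul_le_mul_of_nonneg_left (add_le_add_right h2 (disc k F L))
      (by positivity : (0 : ℤ) ≤ B)
    linarith
  tfae_have 3 → 1 := by
    rintro ⟨d, G, hGd, hG, -, h⟩ b hb
    by_contra hcon
    push Not at hcon
    obtain ⟨i, j, hij⟩ := hcon
    obtain ⟨L, _, _, _, _, _, M, h1⟩ := fails_mono (k := k) U hX hb hij hG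
    obtain ⟨C, hC⟩ := h L M
    obtain ⟨f, hf, hfG, hfM, hfC⟩ := h1 C
    have h2 := hC f hf hfG hfM
    omega
  tfae_finish

end Pool.Agent.W603.DA
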