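import Pool.Agent.W603.DA.Fail
import Pool.Agent.W603.CZ.Vojta

/-!
Points of large height that meet the boundary at boundedly many places, on varieties whose generic
point is on a punctured line; the counting function away from a finite set of places.
-/

set_option autoImplicit false

open FF MvPolynomial Pool.Agent.W603.LV Pool.Agent.W603.PV Pool.Agent.W603.CZ

namespace Pool.Agent.W603.DA

variable {k F : Type} [Field k] [Field F] [Algebra k F] {n : ℕ} {κ : Type}

theorem fails [IsAlgClosed k] [CharZero k] [IsFF k F] [Finite κ]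
    {p : Ideal (MvPolynomial (Fin (n + 1)) F)}
    {Q : κ → MvPolynomial (Fin (n + 1)) F} {q : κ → ℕ} (hQ : ∀ j, (Q j).IsHomogeneous (q j))
    (hQp : ∀ j, Q j ∉ p) (h : HasGmLine p Q) {d : ℕ} {G : MvPolynomial (Fin (n + 1)) F}
    (hG : G.IsHomogeneous d) (hGp : G ∉ p) :
    ∃ (L : Type) (_ : Field L) (_ : Algebra k L) (_ : Algebra F L) (_ : IsScalarTower k F L)
      (_ : FiniteDimensional F L) (M : ℕ), ∀ C : ℤ, ∃ f : Fin (n + 1) → L,
      (∀ H ∈ p, aeval f H = 0) ∧ aeval f G ≠ 0 ∧ (meetsAny (k := k) Q q f).ncard ≤ M ∧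
      C < pht k f := by
  classical
  have := Fintype.ofFinite κ
  have hcF : CharZero F := charZero_of_injective_algebraMap (algebraMap k F).injective
  have hinf : Infinite F := inferInstance
  obtain ⟨L, _, _, _, y, v, a, b, hyG, hyQ, ⟨i, j, hij⟩, hl⟩ := spec_line hQ hQp h hG hGp
  let ak : Algebra k L := ((algebraMap F L).comp (algebraMap k F)).toAlgebra
  have hst : IsScalarTower k F L := IsScalarTower.of_algebraMap_eq fun _ => rfl
  have hL : IsFF k L := isFF_of_finite (F := F)
  obtain ⟨u, hu⟩ := IsFF.exists_transcendental (k := k) (K := L)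
  have hu0 : u ≠ 0 := by
    rintro rfl
    exact hu isAlgebraic_zero
  obtain ⟨C0, hC0⟩ := pht_line (k := k) y v hij
  obtain ⟨T0, hT0⟩ := exists_supp (k := k)
    (Finset.univ : Finset ((Fin (n + 1) ⊕ Fin (n + 1)) ⊕ Option κ))
    (Sum.elim (Sum.elim y v) (fun a => Option.elim a u fun j => aeval y (Q j)))
  have hTy : ∀ P ∉ T0, ∀ l, P.ord (y l) = 0 := fun P hP l => by
    by_contra h
    exact hP (hT0 (Sum.inl (Sum.inl l)) (Finset.mem_univ _) P h)
  have hTv : ∀ P ∉ T0, ∀ l, P.ord (v l) = 0 := fun P hP l => by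
    by_contra h
    exact hP (hT0 (Sum.inl (Sum.inr l)) (Finset.mem_univ _) P h)
  have hTu : ∀ P ∉ T0, P.ord u = 0 := fun P hP => by
    by_contra h
    exact hP (hT0 (Sum.inr none) (Finset.mem_univ _) P h)
  have hTQ : ∀ P ∉ T0, ∀ j, P.ord (aeval y (Q j)) = 0 := fun P hP j => by
    by_contra h
    exact hP (hT0 (Sum.inr (some j)) (Finset.mem_univ _) P h)
  -- height zero
  have hz : hgt k (0 : L) = 0 := by
    rw [hgt_finset (k := k) (0 : L) ∅ (fun P h => absurd P.ord_zero h)]
    rfl
  -- the exponents for which the point is in the exceptional subset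
  obtain ⟨g, hg⟩ : ∃ g : Polynomial L,
      g = aeval (fun l => Polynomial.C (y l) + Polynomial.X * Polynomial.C (v l)) G := ⟨_, rfl⟩
  have hgev : ∀ t : L, g.eval t = aeval (fun l => y l + t * v l) G := by
    intro t
    have h2 : ((Polynomial.aeval t).restrictScalars F).comp
        (aeval (fun l => Polynomial.C (y l) + Polynomial.X * Polynomial.C (v l)) :
          MvPolynomial (Fin (n + 1)) F →ₐ[F] Polynomial L) =
        (aeval (fun l => y l + t * v l) : MvPolynomial (Fin (n + 1)) F →ₐ[F] L) := by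
      apply MvPolynomial.algHom_ext
      intro a
      rw [AlgHom.comp_apply, aeval_X, aeval_X, AlgHom.restrictScalars_apply, map_add, map_mul,
        Polynomial.aeval_C, Polynomial.aeval_X, Polynomial.aeval_C]
      rfl
    rw [hg]
    exact congrArg (fun φ : MvPolynomial (Fin (n + 1)) F →ₐ[F] L => φ G) h2
  have hg0 : g ≠ 0 := by
    intro h0
    apply hyG
    have h1 := hgev 0
    rw [h0, Polynomial.eval_zero] at h1
    rw [h1]
    congr 2
    funext l
    ring
  have hinj : Function.Injective fun m : ℕ => u ^ m - 1 := by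
    have main : ∀ a b : ℕ, a < b → u ^ a - 1 = u ^ b - 1 → False := by
      intro a b hab he
      have h1 : u ^ a = u ^ b := sub_left_injective he
      have h2 : u ^ (b - a) - 1 = 0 := by
        have h3 : u ^ a * (u ^ (b - a) - 1) = 0 := by
          rw [mul_sub, ← pow_add, mul_one, Nat.add_sub_cancel' hab.le, h1, sub_self]
        exact (mul_eq_zero.1 h3).resolve_left (pow_ne_zero _ hu0)
      have h3 := hgt_pow_sub_one (k := k) hu (b - a)
      rw [h2, hz] at h3
      omega
    intro a b he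
    rcases lt_trichotomy a b with h | h | h
    · exact (main a b h he).elim
    · exact h
    · exact (main b a h he.symm).elim
  have hbad : {m : ℕ | g.IsRoot (u ^ m - 1)}.Finite :=
    (Polynomial.finite_setOfPred_isRoot hg0).preimage hinj.injOn
  obtain ⟨b', hb⟩ := hbad.bddAbove
  refine ⟨L, inferInstance, ak, inferInstance, hst, inferInstance, T0.card, fun C => ?_⟩
  obtain ⟨m, hm1, hm2, hm3⟩ : ∃ m : ℕ, b' < m ∧ C + C0 < m ∧ 0 < m :=
    ⟨b' + (C + C0).toNat + 1, by omega, by push_cast; omega, by omega⟩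
  obtain ⟨t, ht⟩ : ∃ t : L, t = u ^ m - 1 := ⟨_, rfl⟩
  have h1 := hgt_pow_sub_one (k := k) hu m
  rw [← ht] at h1
  have ht0 : t ≠ 0 := by
    rintro rfl
    rw [hz] at h1
    omega
  have hline : (fun l => (1 : L) * y l + t * v l) = fun l => y l + t * v l := by
    funext l
    rw [one_mul]
  have hl1 := hl 1 t
  rw [hline] at hl1
  obtain ⟨f, hf⟩ : ∃ f : Fin (n + 1) → L, f = fun l => y l + t * v l := ⟨_, rfl⟩
  rw [← hf] at hl1
  have hfne : ∃ l, f l ≠ 0 := by
    by_contra hcon
    push Not at hcon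
    apply hij
    have e1 : f i * v j - f j * v i = y i * v j - y j * v i := by rw [hf]; ring
    rw [← e1, hcon i, hcon j]
    ring
  refine ⟨f, hl1.1, ?_, ?_, ?_⟩
  · rw [hf, ← hgev]
    intro h0
    have h2 := hb (show m ∈ {m : ℕ | g.IsRoot (u ^ m - 1)} by
      rw [Set.mem_ofPred_eq, ← ht]
      exact h0)
    omega
  · have hsub : meetsAny (k := k) Q q f ⊆ T0 := by
      rintro P ⟨j, hj⟩
      by_contra hP
      have hP' : P ∉ T0 := fun h => hP (Finset.mem_coe.2 h)
      have ge0 : ∀ x : L, P.ord x = 0 → Ge P 0 x := fun x hx => Or.inr hx.ge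
      have hgt : Ge P 0 t := by
        rw [ht]
        have h3 := (ge0 u (hTu P hP')).pow m
        rw [mul_zero] at h3
        exact h3.sub Ge.one
      have hpos : 0 ≤ pord P f := by
        obtain ⟨a, ha, hpa⟩ := exists_pord P hfne
        rw [← hpa]
        have h3 : Ge P 0 (f a) := by
          rw [hf]
          have h4 := hgt.mul (ge0 _ (hTv P hP' a))
          rw [zero_add] at h4
          exact (ge0 _ (hTy P hP' a)).add h4
        exact h3.resolve_left ha
      have hord : P.ord (aeval f (Q j)) = 0 := by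
        rw [hl1.2 j, one_pow, mul_one, ht, add_sub_cancel, P.ord_mul (hyQ j)
          (pow_ne_zero _ (pow_ne_zero _ hu0)), P.ord_pow, P.ord_pow, hTQ P hP', hTu P hP']
        ring
      rw [hord] at hj
      have h5 : (0 : ℤ) ≤ q j * pord P f := by positivity
      omega
    have h3 := Set.ncard_le_ncard hsub T0.finite_toSet
    rwa [Set.ncard_coe_finset] at h3
  · have h3 := hC0 t ht0
    rw [← hf] at h3
    omega

/-- a punctured line meets the boundary in at most two points -/
theorem of_punctured {p : Ideal (MvPolynomial (Fin (n + 1)) F)}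
    {Q : κ → MvPolynomial (Fin (n + 1)) F} {q : κ → ℕ} (h : HasPuncturedLine p Q q) :
    HasGmLine p Q := by
  classical
  obtain ⟨K, _, _, y, v, T, hy0, hy1, hij, hl⟩ := h
  refine ⟨K, inferInstance, inferInstance, y, v, fun j => if j ∈ T then 0 else q j,
    fun j => if j ∈ T then q j else 0, hy0, hy1, hij, fun s t => ⟨(hl s t).1, fun j => ?_⟩⟩
  beta_reduce
  by_cases hj : j ∈ T
  · rw [if_pos hj, if_pos hj, ((hl s t).2 j).1 hj, pow_zero, mul_one]
  · rw [if_neg hj, if_neg hj, ((hl s t).2 j).2 hj, pow_zero, mul_one]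

theorem truncAny_empty {L : Type} [Field L] [Algebra k L] [Algebra F L]
    (Q : κ → MvPolynomial (Fin (n + 1)) F) (q : κ → ℕ) (f : Fin (n + 1) → L) :
    truncAny (k := k) ∅ Q q f = meetsAny (k := k) Q q f := by
  ext P
  constructor
  · intro h
    exact h.2
  · intro h
    exact ⟨fun v hv => absurd hv (Finset.notMem_empty v), h⟩

/-- From the canonical degree and all places to the discriminant and the places away from `S`. -/
theorem to_truncAny [IsAlgClosed k] [CharZero k] [IsFF k F] [Finite κ]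
    {p : Ideal (MvPolynomial (Fin (n + 1)) F)} [p.IsPrime]
    {Q : κ → MvPolynomial (Fin (n + 1)) F} {q : κ → ℕ} (hx : ∃ j, X j ∉ p)
    (h : ∃ (d : ℕ) (G : MvPolynomial (Fin (n + 1)) F), G.IsHomogeneous d ∧ G ∉ p ∧
      (∀ j, Q j ∣ G) ∧ ∃ (B C : ℕ), ∀ (L : Type) [Field L] [Algebra k L] [Algebra F L]
      [IsScalarTower k F L] [FiniteDimensional F L] (f : Fin (n + 1) → L),
      (∀ H ∈ p, aeval f H = 0) → aeval f G ≠ 0 →
        pht k f ≤ B * (canDeg k L + (meetsAny (k := k) Q q f).ncard) +
          C * Module.finrank F L) :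
    ∃ (d : ℕ) (G : MvPolynomial (Fin (n + 1)) F), G.IsHomogeneous d ∧ G ∉ p ∧
      (∀ j, Q j ∣ G) ∧ ∃ B : ℕ, ∀ S : Finset (Place k F), ∃ C : ℕ,
      (∀ (L : Type) [Field L] [Algebra k L] [Algebra F L] [IsScalarTower k F L]
      [FiniteDimensional F L] (f : Fin (n + 1) → L),
      (∀ H ∈ p, aeval f H = 0) → aeval f G ≠ 0 →
        pht k f ≤ B * (disc k F L + (truncAny S Q q f).ncard) + C * Module.finrank F L) ∧
      ∀ f : Fin (n + 1) → F, (∀ H ∈ p, aeval f H = 0) → aeval f G ≠ 0 →
        pht k f ≤ B * (truncAny S Q q f).ncard + C := by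
  obtain ⟨l, hl⟩ := hx
  obtain ⟨d, G, hGd, hG, hQG, B, C, h⟩ := h
  refine ⟨d + 1, G * X l, hGd.mul (isHomogeneous_X _ _), ?_, fun j => (hQG j).mul_right _, B,
    fun S => ?_⟩
  · intro h
    rcases Ideal.IsPrime.mem_or_mem inferInstance h with h | h
    · exact hG h
    · exact hl h
  obtain ⟨C1, hC1⟩ := canDeg_le_disc (k := k) (F := F)
  obtain ⟨C2, hC2⟩ := over_card (k := k) S
  have main : ∀ (L : Type) [Field L] [Algebra k L] [Algebra F L] [IsScalarTower k F L]
      [FiniteDimensional F L] (f : Fin (n + 1) → L),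
      (∀ H ∈ p, aeval f H = 0) → aeval f (G * X l) ≠ 0 →
        pht k f ≤ B * (disc k F L + (truncAny S Q q f).ncard) +
          ((C + B * (C1 + C2) : ℕ) : ℤ) * Module.finrank F L := by
    intro L _ _ _ _ _ f hf hfG
    have hL : IsFF k L := isFF_of_finite (F := F)
    rw [map_mul, aeval_X] at hfG
    have h1 := h L f hf (left_ne_zero_of_mul hfG)
    have h2 := hC1 L
    obtain ⟨hfin, h3⟩ := hC2 L
    have hfj : f l ≠ 0 := right_ne_zero_of_mul hfG
    have hmf : (meetsAny (k := k) Q q f).Finite := meetsAny_finite Q q ⟨l, hfj⟩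
    have h4 : meetsAny (k := k) Q q f ⊆ truncAny S Q q f ∪ {P : Place k L | ∃ v ∈ S, Over P v} := by
      intro P hP
      by_cases hPS : ∃ v ∈ S, Over P v
      · exact Or.inr hPS
      · push Not at hPS
        exact Or.inl ⟨hPS, hP⟩
    have htf : (truncAny S Q q f).Finite := hmf.subset fun P hP => hP.2
    have h5 : (meetsAny (k := k) Q q f).ncard ≤ (truncAny S Q q f).ncard +
        {P : Place k L | ∃ v ∈ S, Over P v}.ncard :=
      (Set.ncard_le_ncard h4 (htf.union hfin)).trans (Set.ncard_union_le _ _)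
    have h6 : ((meetsAny (k := k) Q q f).ncard : ℤ) ≤ (truncAny S Q q f).ncard +
        {P : Place k L | ∃ v ∈ S, Over P v}.ncard := by exact_mod_cast h5
    have h7 : canDeg k L + (meetsAny (k := k) Q q f).ncard ≤
        (disc k F L + (truncAny S Q q f).ncard) + (C1 + C2) * Module.finrank F L := by linarith
    have h8 := mul_le_mul_of_nonneg_left h7 (by positivity : (0 : ℤ) ≤ B)
    push_cast
    linarith
  refine ⟨C + B * (C1 + C2), main, fun f hf hfG => ?_⟩
  have h1 := main F f hf hfG
  rw [disc_self, zero_add, Module.finrank_self, Nat.cast_one, mul_one] at h1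
  exact h1

end Pool.Agent.W603.DA
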