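import Mathlib
import Pool.Agent.H159R3.War.Main
import Pool.Agent.H159R3.War.Closed
import Pool.Agent.H159R3.GGL.Main

/-!
Holomorphic maps from one-dimensional complex tori to projective varieties.
-/

set_option autoImplicit false

open MvPolynomial Filter Topology

namespace Pool.Agent.W603.DA

open Pool.Agent.H159R3.GGL (Pts EntireCurve PowerSparse)

variable {n : ℕ} {ι : Type}

/-- `Φ` is a holomorphic map from the complex torus `ℂ / Λ` to the projective variety `F i = 0`
over the complex numbers, `Λ` being the lattice spanned by the pair of periods `L`: it is periodic,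
and near each point it is given by holomorphic homogeneous coordinates without common zero. -/
def TorusMap (L : PeriodPair) (F : ι → MvPolynomial (Fin (n + 1)) ℂ)
    (Φ : ℂ → Projectivization ℂ (Fin (n + 1) → ℂ)) : Prop :=
  (∀ z, ∀ l ∈ L.lattice, Φ (z + l) = Φ z) ∧
  (∀ z0, ∃ g : ℂ → Fin (n + 1) → ℂ, ∀ᶠ z in 𝓝 z0,
    DifferentiableAt ℂ g z ∧ ∃ h : g z ≠ 0, Φ z = Projectivization.mk ℂ (g z) h) ∧
  ∀ z i, eval (Φ z).rep (F i) = 0

theorem eval_smul' {G : MvPolynomial (Fin (n + 1)) ℂ} {d : ℕ} (hG : G.IsHomogeneous d) (c : ℂ)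
    (x : Fin (n + 1) → ℂ) (h : eval x G = 0) : eval (c • x) G = 0 := by
  have h2 : eval (c • x) G = c ^ d * eval x G := by
    rw [eval_eq', eval_eq', Finset.mul_sum]
    refine Finset.sum_congr rfl fun α hα => ?_
    have h3 : ∑ j, α j = d := by
      have h4 := hG (mem_support_iff.1 hα)
      rw [← h4, Finsupp.weight_apply, Finsupp.sum_fintype _ _ (by simp)]
      simp
    simp only [Pi.smul_apply, smul_eq_mul, mul_pow, Finset.prod_mul_distrib]
    rw [Finset.prod_pow_eq_pow_sum, h3]
    ring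
  rw [h2, h, mul_zero]

theorem exists_wp (L : PeriodPair) : ∃ z, z ∉ L.lattice ∧ L.weierstrassP z ≠ 0 := by
  by_contra hcon
  push Not at hcon
  have h0 : L.weierstrassP = fun _ => 0 := by
    funext z
    by_cases hz : z ∈ L.lattice
    · exact L.weierstrassP_coe ⟨z, hz⟩
    · exact hcon z hz
  apply L.not_continuousAt_weierstrassP 0 (zero_mem _)
  rw [h0]
  exact continuousAt_const

/-- A nonconstant rational curve in the variety gives a nonconstant holomorphic map from every
one-dimensional torus. -/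
theorem torus_of_rat {F : ι → MvPolynomial (Fin (n + 1)) ℂ}
    (hF : ∀ i, ∃ d, (F i).IsHomogeneous d) (g : ℂ → ℂ → Fin (n + 1) → ℂ) (M : ℕ)
    (hd : ∀ (a b : ℂ → ℂ) (z : ℂ), DifferentiableAt ℂ a z → DifferentiableAt ℂ b z →
      DifferentiableAt ℂ (fun z => g (a z) (b z)) z)
    (hhom : ∀ c s t, g (c * s) (c * t) = c ^ M • g s t)
    (hne : ∀ s t, (s ≠ 0 ∨ t ≠ 0) → g s t ≠ 0)
    (hnp : ∀ t, t ≠ 0 → ∀ c : ℂ, g 1 t ≠ c • g 0 1)
    (hgF : ∀ s t i, eval (g s t) (F i) = 0) (L : PeriodPair) :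
    ∃ Φ, TorusMap L F Φ ∧ ∃ z w, Φ z ≠ Φ w := by
  classical
  have h01 : g 0 1 ≠ 0 := hne 0 1 (Or.inr one_ne_zero)
  have h1t : ∀ t, g 1 t ≠ 0 := fun t => hne 1 t (Or.inl one_ne_zero)
  let Φ : ℂ → Projectivization ℂ (Fin (n + 1) → ℂ) := fun z =>
    if z ∈ L.lattice then Projectivization.mk ℂ (g 0 1) h01
    else Projectivization.mk ℂ (g 1 (L.weierstrassP z)) (h1t _)
  have hΦ0 : ∀ z ∈ L.lattice, Φ z = Projectivization.mk ℂ (g 0 1) h01 := fun z hz => if_pos hz
  have hΦ1 : ∀ z, z ∉ L.lattice → Φ z = Projectivization.mk ℂ (g 1 (L.weierstrassP z)) (h1t _) :=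
    fun z hz => if_neg hz
  have hopen : IsOpen ((L.lattice : Set ℂ)ᶜ) := L.isClosed_lattice.isOpen_compl
  refine ⟨Φ, ⟨?_, ?_, ?_⟩, ?_⟩
  · intro z l hl
    by_cases hz : z ∈ L.lattice
    · rw [hΦ0 z hz, hΦ0 _ (add_mem hz hl)]
    · have hz' : z + l ∉ L.lattice := fun h => hz (by
        have := sub_mem h hl
        rwa [add_sub_cancel_right] at this)
      rw [hΦ1 z hz, hΦ1 _ hz']
      have h1 := L.weierstrassP_add_coe z ⟨l, hl⟩
      simp only at h1
      simp only [h1]
  · intro z0
    by_cases hz0 : z0 ∈ L.lattice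
    · refine ⟨fun z => g ((z - z0) ^ 2)
        (1 + (z - z0) ^ 2 * (L.weierstrassPExcept z0 z - 1 / z0 ^ 2)), ?_⟩
      have hnh := L.compl_lattice_sdiff_singleton_mem_nhds z0
      have hop := L.isOpen_compl_lattice_sdiff (s := {z0})
      filter_upwards [hnh] with z hz
      have hdiff : DifferentiableAt ℂ (L.weierstrassPExcept z0) z :=
        (L.differentiableOn_weierstrassPExcept z0).differentiableAt (hop.mem_nhds hz)
      refine ⟨hd _ _ z (by fun_prop) (by fun_prop), ?_⟩
      by_cases hzz : z = z0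
      · subst hzz
        have h1 : g ((z - z) ^ 2) (1 + (z - z) ^ 2 * (L.weierstrassPExcept z z - 1 / z ^ 2)) =
            g 0 1 := by
          congr 1
          · ring
          · ring
        refine ⟨by rw [h1]; exact h01, ?_⟩
        rw [hΦ0 z hz0]
        simp only [h1]
      · have hzl : z ∉ L.lattice := fun h => hz ⟨h, hzz⟩
        have hc : (z - z0) ^ 2 ≠ 0 := pow_ne_zero _ (sub_ne_zero.2 hzz)
        have h2 := L.weierstrassPExcept_add ⟨z0, hz0⟩ z
        simp only at h2
        have h1 : g ((z - z0) ^ 2)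
            (1 + (z - z0) ^ 2 * (L.weierstrassPExcept z0 z - 1 / z0 ^ 2)) =
            ((z - z0) ^ 2) ^ M • g 1 (L.weierstrassP z) := by
          rw [← hhom, mul_one, ← h2]
          congr 1
          have h5 : (z - z0) ^ 2 * (1 / (z - z0) ^ 2) = 1 := mul_one_div_cancel hc
          linear_combination -h5
        have h3 : g ((z - z0) ^ 2)
            (1 + (z - z0) ^ 2 * (L.weierstrassPExcept z0 z - 1 / z0 ^ 2)) ≠ 0 := by
          rw [h1]
          exact smul_ne_zero (pow_ne_zero _ hc) (h1t _)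
        refine ⟨h3, ?_⟩
        rw [hΦ1 z hzl, Projectivization.mk_eq_mk_iff']
        refine ⟨(((z - z0) ^ 2) ^ M)⁻¹, ?_⟩
        rw [h1, smul_smul, inv_mul_cancel₀ (pow_ne_zero _ hc), one_smul]
    · refine ⟨fun z => g 1 (L.weierstrassP z), ?_⟩
      filter_upwards [hopen.mem_nhds hz0] with z hz
      have hdiff : DifferentiableAt ℂ L.weierstrassP z :=
        L.differentiableOn_weierstrassP.differentiableAt (hopen.mem_nhds hz)
      exact ⟨hd _ _ z (by fun_prop) hdiff, h1t _, hΦ1 z hz⟩
  · intro z i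
    obtain ⟨d, hdeg⟩ := hF i
    have key : ∀ (v : Fin (n + 1) → ℂ) (hv : v ≠ 0), eval v (F i) = 0 →
        eval (Projectivization.mk ℂ v hv).rep (F i) = 0 := by
      intro v hv h
      obtain ⟨a, ha⟩ := Projectivization.exists_smul_eq_mk_rep ℂ v hv
      rw [← ha]
      exact eval_smul' hdeg (a : ℂ) v h
    by_cases hz : z ∈ L.lattice
    · rw [hΦ0 z hz]
      exact key _ _ (hgF _ _ i)
    · rw [hΦ1 z hz]
      exact key _ _ (hgF _ _ i)
  · obtain ⟨z, hz, hwz⟩ := exists_wp L
    refine ⟨z, 0, fun h => ?_⟩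
    rw [hΦ1 z hz, hΦ0 0 (zero_mem _), Projectivization.mk_eq_mk_iff'] at h
    obtain ⟨a, ha⟩ := h
    exact hnp _ hwz a ha.symm

/-- lines -/
theorem torus_of_line {F : ι → MvPolynomial (Fin (n + 1)) ℂ}
    (hF : ∀ i, ∃ d, (F i).IsHomogeneous d) {a b : Fin (n + 1) → ℂ}
    (hab : LinearIndependent ℂ ![a, b]) (h : ∀ i (s t : ℂ), eval (s • a + t • b) (F i) = 0)
    (L : PeriodPair) : ∃ Φ, TorusMap L F Φ ∧ ∃ z w, Φ z ≠ Φ w := by
  have hp := LinearIndependent.pair_iff.1 hab
  refine torus_of_rat hF (fun s t => s • a + t • b) 1 ?_ ?_ ?_ ?_ (fun s t i => h i s t) L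
  · intro u v z hu hv
    exact (hu.smul_const a).add (hv.smul_const b)
  · intro c s t
    rw [pow_one, smul_add, smul_smul, smul_smul]
  · intro s t hst h0
    obtain ⟨h1, h2⟩ := hp s t h0
    rcases hst with h | h
    · exact h h1
    · exact h h2
  · intro t _ c h0
    have h1 : (1 : ℂ) • a + (t - c) • b = 0 := by
      rw [sub_smul]
      have h2 : (1 : ℂ) • a + t • b - c • ((0 : ℂ) • a + (1 : ℂ) • b) = 0 := sub_eq_zero.2 h0
      rw [zero_smul, zero_add, one_smul] at h2
      rw [← h2]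
      module
    exact one_ne_zero (hp _ _ h1).1

/-- orbits of one-parameter groups -/
theorem torus_of_orbit {F : ι → MvPolynomial (Fin (n + 1)) ℂ}
    (hF : ∀ i, ∃ d, (F i).IsHomogeneous d) (x : Fin (n + 1) → ℂ) (b : Fin (n + 1) → ℤ)
    {j k : Fin (n + 1)} (hj : x j ≠ 0) (hk : x k ≠ 0) (hjk : b j ≠ b k)
    (h : ∀ (t : ℂ), t ≠ 0 → ∀ i, eval (fun l => x l * t ^ b l) (F i) = 0)
    (L : PeriodPair) : ∃ Φ, TorusMap L F Φ ∧ ∃ z w, Φ z ≠ Φ w := by
  classical
  obtain ⟨J, hJ⟩ : ∃ J : Finset (Fin (n + 1)), J = Finset.univ.filter fun l => x l ≠ 0 := ⟨_, rfl⟩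
  have hJm : ∀ l, l ∈ J ↔ x l ≠ 0 := fun l => by rw [hJ]; simp
  have hJne : J.Nonempty := ⟨j, (hJm j).2 hj⟩
  obtain ⟨lo, hlo, hlo2⟩ := Finset.exists_min_image J b hJne
  obtain ⟨hi, hhi, hhi2⟩ := Finset.exists_max_image J b hJne
  have hlt : b lo < b hi := by
    have h1 := hlo2 j ((hJm j).2 hj)
    have h2 := hlo2 k ((hJm k).2 hk)
    have h3 := hhi2 j ((hJm j).2 hj)
    have h4 := hhi2 k ((hJm k).2 hk)
    omega
  obtain ⟨e, he⟩ : ∃ e : Fin (n + 1) → ℕ, e = fun l => (b l - b lo).toNat := ⟨_, rfl⟩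
  obtain ⟨M, hM⟩ : ∃ M : ℕ, M = (b hi - b lo).toNat := ⟨_, rfl⟩
  have heM : ∀ l ∈ J, e l ≤ M := fun l hl => by
    rw [he, hM]
    have := hhi2 l hl
    simp only
    omega
  have hM0 : 0 < M := by rw [hM]; omega
  have helo : e lo = 0 := by rw [he]; simp
  have hehi : e hi = M := by rw [he, hM]
  have hez : ∀ l ∈ J, (e l : ℤ) = b l - b lo := fun l hl => by
    rw [he]
    have := hlo2 l hl
    simp only
    omega
  refine torus_of_rat hF (fun s t l => if x l = 0 then 0 else x l * s ^ (M - e l) * t ^ e l) M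
    ?_ ?_ ?_ ?_ ?_ L
  · intro u v z hu hv
    rw [differentiableAt_pi]
    intro l
    by_cases hl : x l = 0
    · simp only [hl, if_true]
      exact differentiableAt_const _
    · simp only [hl, if_false]
      exact ((differentiableAt_const _).mul (hu.pow _)).mul (hv.pow _)
  · intro c s t
    funext l
    by_cases hl : x l = 0
    · simp [hl]
    · simp only [hl, if_false, Pi.smul_apply, smul_eq_mul, mul_pow]
      have h1 : c ^ M = c ^ (M - e l) * c ^ e l := by
        rw [← pow_add, Nat.sub_add_cancel (heM l ((hJm l).2 hl))]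
      rw [h1]
      ring
  · intro s t hst h0
    rcases hst with hs | ht
    · have h1 := congrFun h0 lo
      simp only [(hJm lo).1 hlo, if_false, helo, pow_zero, mul_one, Pi.zero_apply] at h1
      exact mul_ne_zero ((hJm lo).1 hlo) (pow_ne_zero _ hs) h1
    · have h1 := congrFun h0 hi
      simp only [(hJm hi).1 hhi, if_false, hehi, Nat.sub_self, pow_zero, mul_one,
        Pi.zero_apply] at h1
      exact mul_ne_zero ((hJm hi).1 hhi) (pow_ne_zero _ ht) h1
  · intro t _ c h0
    have h1 := congrFun h0 lo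
    simp only [(hJm lo).1 hlo, if_false, helo, pow_zero, mul_one, one_pow, Nat.sub_zero,
      Pi.smul_apply, smul_eq_mul, zero_pow hM0.ne', mul_zero] at h1
  · have hgen : ∀ s t : ℂ, s ≠ 0 → t ≠ 0 → ∀ i, eval (fun l => if x l = 0 then 0 else
        x l * s ^ (M - e l) * t ^ e l) (F i) = 0 := by
      intro s t hs ht i
      obtain ⟨d, hd⟩ := hF i
      have h1 : (fun l => if x l = 0 then 0 else x l * s ^ (M - e l) * t ^ e l) =
          (s ^ M * (t / s) ^ (-b lo)) • fun l => x l * (t / s) ^ b l := by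
        funext l
        by_cases hl : x l = 0
        · simp [hl]
        · simp only [hl, if_false, Pi.smul_apply, smul_eq_mul]
          have hlJ := (hJm l).2 hl
          have hts : t / s ≠ 0 := div_ne_zero ht hs
          have h2 : s ^ M = s ^ (M - e l) * s ^ e l := by
            rw [← pow_add, Nat.sub_add_cancel (heM l hlJ)]
          have h3 : (t / s) ^ (-b lo) * (t / s) ^ b l = (t / s) ^ e l := by
            rw [← zpow_add₀ hts, ← zpow_natCast, hez l hlJ]
            congr 1
            ring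
          calc x l * s ^ (M - e l) * t ^ e l
              = x l * s ^ (M - e l) * (s ^ e l * (t / s) ^ e l) := by
                rw [← mul_pow, mul_div_cancel₀ _ hs]
            _ = _ := by rw [← h3, h2]; ring
      rw [h1]
      exact eval_smul' hd _ _ (h _ (div_ne_zero ht hs) i)
    have hcont : ∀ i, Continuous fun p : ℂ × ℂ => eval (fun l => if x l = 0 then 0 else
        x l * p.1 ^ (M - e l) * p.2 ^ e l) (F i) := by
      intro i
      refine (MvPolynomial.continuous_eval (F i)).comp (continuous_pi fun l => ?_)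
      by_cases hl : x l = 0
      · simp only [hl, if_true]
        exact continuous_const
      · simp only [hl, if_false]
        fun_prop
    have hden : Dense {t : ℂ | t ≠ 0} := dense_compl_singleton 0
    have h2 : ∀ s : ℂ, s ≠ 0 → ∀ t i, eval (fun l => if x l = 0 then 0 else
        x l * s ^ (M - e l) * t ^ e l) (F i) = 0 := by
      intro s hs t i
      have h3 := Continuous.ext_on hden ((hcont i).comp (Continuous.prodMk_right s))
        (continuous_const (y := (0 : ℂ))) fun t ht => hgen s t hs ht i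
      exact congrFun h3 t
    intro s t i
    have h3 := Continuous.ext_on hden ((hcont i).comp (Continuous.prodMk_left t))
      (continuous_const (y := (0 : ℂ))) fun s hs => h2 s hs t i
    exact congrFun h3 s

/-- Varieties given by sums of few high powers of linear forms: if all holomorphic maps from some
one-dimensional torus are constant, there are no entire curves. -/
theorem brody_waring {F : ι → MvPolynomial (Fin (n + 1)) ℂ}
    (hC : ∀ i, Pool.Agent.H159R3.War.SmallWaring (F i)) (L : PeriodPair)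
    (hL : ∀ Φ, TorusMap L F Φ → ∀ z w, Φ z = Φ w) (f : ℂ → Fin (n + 1) → ℂ) :
    ¬ EntireCurve F f := by
  intro hf
  obtain ⟨q, hq⟩ := Pool.Agent.H159R3.War.curve_on_line F hC hf 0
  obtain ⟨Φ, hΦ, z, w, hzw⟩ := torus_of_line (fun i => (hC i).hom) hq.1 hq.2 L
  exact hzw (hL Φ hΦ z w)

/-- Varieties given by forms with few monomials with high exponents: if all holomorphic maps from
some one-dimensional torus are constant, there are no entire curves. -/
theorem brody_sparse {F : ι → MvPolynomial (Fin (n + 1)) ℂ}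
    (hF : ∀ i, ∃ d, (F i).IsHomogeneous d) (hC : ∀ i, PowerSparse (F i)) (L : PeriodPair)
    (hL : ∀ Φ, TorusMap L F Φ → ∀ z w, Φ z = Φ w) (f : ℂ → Fin (n + 1) → ℂ) :
    ¬ EntireCurve F f := by
  classical
  intro hf
  obtain ⟨z0, b, j, k, hj, hk, hjk, -, hpart⟩ :=
    Pool.Agent.H159R3.GGL.curve F hC f hf 1 0 (by simp)
  obtain ⟨x, hx⟩ : ∃ x, x = f z0 := ⟨_, rfl⟩
  rw [← hx] at hj hk hpart
  have key : ∀ (t : ℂ), t ≠ 0 → ∀ i, eval (fun l => x l * t ^ b l) (F i) = 0 := by
    intro t ht i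
    have hprod : ∀ α : Fin (n + 1) →₀ ℕ, ∏ l, (x l * t ^ b l) ^ α l =
        (∏ l, x l ^ α l) * t ^ ∑ l, (α l : ℤ) * b l := by
      intro α
      have h1 : ∀ s : Finset (Fin (n + 1)), ∏ l ∈ s, (t ^ b l) ^ α l = t ^ ∑ l ∈ s, (α l : ℤ) * b l := by
        intro s
        induction s using Finset.induction_on with
        | empty => simp
        | insert a s ha ih =>
          rw [Finset.prod_insert ha, Finset.sum_insert ha, ih, zpow_add₀ ht, ← zpow_natCast (t ^ b a),
            ← zpow_mul, mul_comm (b a)]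
      simp only [mul_pow, Finset.prod_mul_distrib]
      rw [h1]
    rw [eval_eq', ← Finset.sum_fiberwise_of_maps_to (s := (F i).support)
      (t := (F i).support.image fun α => ∑ l, (α l : ℤ) * b l) (g := fun α => ∑ l, (α l : ℤ) * b l)
      (fun α hα => Finset.mem_image_of_mem _ hα)]
    refine Finset.sum_eq_zero fun v _ => ?_
    have h1 := hpart i v
    rw [Pool.Agent.H159R3.GGL.eval_sub'] at h1
    have h2 : ∑ α ∈ (F i).support.filter (fun α => ∑ l, (α l : ℤ) * b l = v),
        (F i).coeff α * ∏ l, (x l * t ^ b l) ^ α l =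
        (∑ α ∈ (F i).support.filter (fun α => ∑ l, (α l : ℤ) * b l = v),
          (F i).coeff α * ∏ l, x l ^ α l) * t ^ v := by
      rw [Finset.sum_mul]
      refine Finset.sum_congr rfl fun α hα => ?_
      rw [hprod, (Finset.mem_filter.1 hα).2]
      ring
    rw [h2, h1, zero_mul]
  obtain ⟨Φ, hΦ, z, w, hzw⟩ := torus_of_orbit hF x b hj hk hjk key L
  exact hzw (hL Φ hΦ z w)

end Pool.Agent.W603.DA
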